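import Pool.Agent.H26.ES.Defs

/-!
# The critical mean value with a power of the logarithm saved: targets of the star part (helper26)

Page: H26_E21_STAR.md. Every `T_X` is a proposition to be proved in a module of its own.
-/

set_option autoImplicit false

open Finset MeasureTheory

namespace Pool.Agent.H26.ES

open Pool.Agent.H24.CL Pool.Agent.H24.LV

/-! ## 1. Good lines -/

/-- NWT: few alive points in a coset of `H k q 1` (Newton). -/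
def T_NWT : Prop :=
  ∀ (k q N : ℕ) (t : ℝ) (a : X k) (Y : Finset (X k)), 1 ≤ k → q.Prime → k < q → 1 ≤ N → 0 < t →
    (∀ y ∈ Y, y - a ∈ H k q 1 ∧ t ≤ ‖u (q * N) y‖) →
    (Y.card : ℝ) ≤ (Nat.factorial k : ℝ) * (VD q N a / t ^ 2) ^ k

/-- SHP: two lines in different classes have at most `k - 1` common cells, and the shared positions
of a line. -/
def T_SHP : Prop :=
  (∀ (k q : ℕ), q.Prime → k < q → ∀ a a' : X k, a - a' ∉ H k q 1 → ∀ B : Finset ℕ, B ⊆ range q →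
    (∀ b ∈ B, phi q b a = phi q b a') → B.card ≤ k - 1) ∧
  ∀ (k q : ℕ) (G : Set (X k)) (m : ℝ), 1 ≤ k → q.Prime → k < q → 1 ≤ m →
    CntM (H k q k) (H k q 1) G m → ∀ a ∈ G, ∀ B : Finset ℕ, B ⊆ range q →
    (∀ b ∈ B, a ∉ Uns k q G b) → (B.card : ℝ) ≤ k * m

/-- TPU: transport along unshared cells. -/
def T_TPU : Prop :=
  ∀ (k q : ℕ) (A W : Set (X k)) (ν m θ : ℝ), 1 ≤ k → q.Prime → k < q → MeasurableSet A →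
    MeasurableSet W → 1 ≤ ν → 1 ≤ m → 0 < θ → Cnt (H k q k) A m → Cnt (H k q 1) A ν →
    (∀ a ∈ A, θ ≤ hd q W a) → 2 * k * m ≤ θ * q →
    (q : ℝ) ^ (KN k) * volume.real A ≤ 2 / θ * ν * volume.real W

/-- TPM: transport without condition. -/
def T_TPM : Prop :=
  ∀ (k q : ℕ) (A W : Set (X k)) (m θ : ℝ), 1 ≤ k → 1 ≤ q → MeasurableSet A → MeasurableSet W →
    1 ≤ m → 0 < θ → Cnt (H k q k) A m → (∀ a ∈ A, θ ≤ hd q W a) →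
    (q : ℝ) ^ (KN k) * volume.real A ≤ 1 / θ * m * volume.real W

/-- MVV: few alive points on lines with a large mean square. -/
def T_MVV : Prop :=
  ∀ k : ℕ, 3 ≤ k → ∃ C : ℝ, 1 ≤ C ∧ ∀ (q N : ℕ) (t m lam : ℝ) (A : Set (X k)), q.Prime → k < q →
    1 ≤ N → 0 < t → 1 ≤ m → m ^ 8 ≤ q → 1 ≤ lam → MeasurableSet A →
    (∀ a ∈ A, t ≤ ‖u (q * N) a‖) → Cnt (H k q k) A m →
    ((q : ℝ) * N) ^ (KN k) * t ^ (2 * KN k) *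
      volume.real {a : X k | a ∈ A ∧ lam * t ^ 2 ≤ VD q N a} ≤
        C * (1 / lam ^ (KN k - k) + 1 / q)

/-- RTN: most alive points have many alive cells. -/
def T_RTN : Prop :=
  ∀ k : ℕ, 3 ≤ k → ∃ C : ℝ, 1 ≤ C ∧ ∀ (q N : ℕ) (t m ν τ : ℝ) (A : Set (X k)), q.Prime → k < q →
    1 ≤ N → 0 < t → 1 ≤ m → m ^ 8 ≤ q → 1 ≤ ν → 0 < τ → τ ≤ 1 / 8 → MeasurableSet A →
    (∀ a ∈ A, t ≤ ‖u (q * N) a‖) → Cnt (H k q k) A m → Cnt (H k q 1) A ν →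
    ((q : ℝ) * N) ^ (KN k) * t ^ (2 * KN k) *
      volume.real {a : X k | a ∈ A ∧ hd q {v : X k | t / 4 ≤ ‖u N v‖} a < τ} ≤
        C * (ν * τ ^ (2 * KN k - 1) + 1 / q)

/-- GMP: the good lines: measurability, invariance, uniqueness, fibres and mass. -/
def T_GMP : Prop :=
  ∀ (k q : ℕ), 1 ≤ k → q.Prime → k < q → ∀ (A V : Set (X k)) (τ ν m : ℝ), MeasurableSet A →
    MeasurableSet V → 0 < τ → 1 ≤ ν → 1 ≤ m → Cnt (H k q k) A m → Cnt (H k q 1) A ν →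
    (∀ y, MeasurableSet (Uns k q (GdL k q A V τ) y)) ∧
    (∀ y, Uns k q (GdL k q A V τ) y ⊆ GdL k q A V τ) ∧
    (∀ y, Inv k q (Uns k q (GdL k q A V τ) y)) ∧
    Uni k q (Uns k q (GdL k q A V τ)) ∧
    (q : ℝ) ^ k * volume.real {a : X k | a ∈ A ∧ τ ≤ hd q V a} ≤
      ν * volume.real (GdL k q A V τ) ∧
    (τ - k * m / q) * volume.real (GdL k q A V τ) ≤ (1 / (q : ℝ)) * ∑ y ∈ range q,
      volume.real {a : X k | a ∈ Uns k q (GdL k q A V τ) y ∧ phi q y a ∈ V}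

/-! ## 2. Stars -/

/-- STP: the mass of the stars as an integral over the points. -/
def T_STP : Prop :=
  ∀ (k : ℕ) (Q : Finset ℕ) (V : Set (X k)) (Gd : ℕ → ℕ → Set (X k)), 3 ≤ k →
    (∀ p ∈ Q, p.Prime) → MeasurableSet V → (∀ p ∈ Q, ∀ y, MeasurableSet (Gd p y)) →
    (∀ p ∈ Q, ∀ y, Inv k p (Gd p y)) → (∀ p ∈ Q, Uni k p (Gd p)) →
    ∃ G : ℕ → ℕ → X k → ℝ, (∀ p x, Measurable (G p x)) ∧ (∀ p x w, 0 ≤ G p x w ∧ G p x w ≤ 1) ∧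
      (∀ p ∈ Q, ∀ x < p, ∀ F : X k → ℝ, ∀ B : ℝ, Measurable F → (∀ a, |F a| ≤ B) →
        (p : ℝ) ^ (KN k - k) * ∫ a in Gd p x, F (phi p x a) = ∫ w, F w * G p x w) ∧
      ∀ S ⊆ Q, ∀ x < DS S, (DS S : ℝ) ^ (KN k - k) * volume.real {b : X k | StarP S V Gd b x} =
        ∫ w in V, ∏ p ∈ S, G p (x / (DS S / p)) w

/-- JEP: Jensen's inequality over the pool. -/
def T_JEP : Prop :=
  ∀ k : ℕ, 3 ≤ k → ∀ (Q : Finset ℕ) (V : Set (X k)) (Gd : ℕ → ℕ → Set (X k)) (ρ Ω : ℝ) (n : ℕ),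
    0 < ρ → ρ ≤ 1 → 0 < Ω → 1 ≤ n → (∀ p ∈ Q, p.Prime) → MeasurableSet V →
    (∀ p ∈ Q, ∀ y, MeasurableSet (Gd p y)) → (∀ p ∈ Q, ∀ y, Inv k p (Gd p y)) →
    (∀ p ∈ Q, Uni k p (Gd p)) → volume.real V ≤ Ω →
    (∀ p ∈ Q, ρ * Ω ≤ (p : ℝ) ^ (KN k - k) * ((1 / (p : ℝ)) * ∑ y ∈ range p,
      volume.real {a : X k | a ∈ Gd p y ∧ phi p y a ∈ V})) →
    2 * (n : ℝ) ^ 2 ≤ ρ ^ n * Q.card →
    ∃ S ⊆ Q, S.card = n ∧ ρ ^ n * Ω ≤ 2 * mass k (DS S) (fun b x => StarP S V Gd b x)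

/-- LOP: removing some good lines. -/
def T_LOP : Prop :=
  ∀ (k : ℕ) (S : Finset ℕ) (V : Set (X k)) (Ge Ge' : ℕ → Set (X k)) (Gd : ℕ → ℕ → Set (X k)),
    3 ≤ k → (∀ p ∈ S, p.Prime) → MeasurableSet V → (∀ p ∈ S, ∀ y, MeasurableSet (Gd p y)) →
    (∀ p ∈ S, MeasurableSet (Ge p)) → (∀ p ∈ S, MeasurableSet (Ge' p)) →
    (∀ p ∈ S, ∀ y, Inv k p (Gd p y)) → (∀ p ∈ S, Inv k p (Ge' p)) → (∀ p ∈ S, Uni k p (Gd p)) →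
    (∀ p ∈ S, ∀ y, Gd p y ⊆ Ge p) →
    mass k (DS S) (fun b x => StarP S V Gd b x) ≤
      mass k (DS S) (fun b x => StarP S V (fun p y => Gd p y ∩ Ge' p) b x) +
      ∑ p ∈ S, (p : ℝ) ^ (KN k - k) * volume.real (Ge p \ Ge' p)

/-- TRP: adding one prime to a set of stars. -/
def T_TRP : Prop :=
  ∀ (k : ℕ) (S : Finset ℕ) (V : Set (X k)) (Ge : ℕ → Set (X k)) (Gd : ℕ → ℕ → Set (X k))
    (P m τ Ω : ℝ) (q : ℕ), q ∉ S → SDatP k (insert q S) V Ge Gd P m τ Ω →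
    ∀ T : X k → ℕ → Prop, (∀ x, MeasurableSet {b : X k | T b x}) →
    mass k (DS (insert q S)) (fun b x => T (phi q (x % q) b) (x / q) ∧
        phi (DS S) (x % DS S) b ∈ Gd q (x / DS S)) ≤ mass k (DS S) T

/-- PCP: bad `q`-lines in a table. The pairs (line, position) are counted modulo `H k q 1`. -/
def T_PCP : Prop :=
  ∀ k : ℕ, 3 ≤ k → ∃ C : ℝ, 1 ≤ C ∧ ∀ (S : Finset ℕ) (V : Set (X k)) (Ge : ℕ → Set (X k))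
    (Gd : ℕ → ℕ → Set (X k)) (P m τ Ω kap : ℝ), SDatP k S V Ge Gd P m τ Ω → 0 < kap → kap ≤ 1 →
    ∀ p ∈ S, ∀ q ∈ S, p ≠ q → ∀ (a : X k) (Y : ℕ → Finset (X k)),
    (∀ y < p, ∀ b ∈ Y y, b - a ∈ H k p k ⊔ H k q k ∧ phi p y b ∈ Ge q ∧
      BadP p q V (Gd p) kap b y) →
    (∀ y < p, ∀ b ∈ Y y, ∀ b' ∈ Y y, phi p y (b - b') ∈ H k q 1 → b = b') →
    (∑ y ∈ range p, ((Y y).card : ℝ) ≤ C * m ^ 3 / kap ^ 2) ∧
    ((∃ y < p, (Y y).Nonempty) → ∃ Z : ℕ → Finset (X k),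
      (∀ z < q, ∀ b ∈ Z z, b - a ∈ H k p k ⊔ H k q k ∧ phi q z b ∈ Ge p) ∧
      (∀ z < q, ∀ b ∈ Z z, ∀ b' ∈ Z z, phi q z (b - b') ∈ H k p 1 → b = b') ∧
      kap * q ≤ ∑ z ∈ range q, ((Z z).card : ℝ))

/-- PLP: the pair lemma. -/
def T_PLP : Prop :=
  ∀ k : ℕ, 3 ≤ k → ∃ C : ℝ, 1 ≤ C ∧ ∀ (S : Finset ℕ) (V : Set (X k)) (Ge : ℕ → Set (X k))
    (Gd : ℕ → ℕ → Set (X k)) (P m τ Ω kap : ℝ), SDatP k S V Ge Gd P m τ Ω → 0 < kap → kap ≤ 1 →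
    ∀ p ∈ S, ∀ q ∈ S, p ≠ q →
    (q : ℝ) ^ (KN k - k) * ((1 / (p : ℝ)) * ∑ y ∈ range p,
      volume.real {b : X k | phi p y b ∈ Ge q ∧ BadP p q V (Gd p) kap b y}) ≤
        C * m ^ 3 / (kap ^ 3 * P) * Ω

/-- NLP: a star which is not lonely has a dense grid. -/
def T_NLP : Prop :=
  ∀ (k : ℕ) (S : Finset ℕ) (V : Set (X k)) (Ge : ℕ → Set (X k)) (Gd : ℕ → ℕ → Set (X k))
    (P m τ Ω kap : ℝ) (q : ℕ), q ∉ S → SDatP k (insert q S) V Ge Gd P m τ Ω →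
    ∀ (b : X k) (x : ℕ), x < DS (insert q S) →
    StarP (insert q S) V Gd b x → ¬ LonelyP S q V Gd kap b x →
      kap * hd (DS S) V (phi q (x % q) b) ≤ hd (DS (insert q S)) V b

/-- LCP: the number of the lonely stars, and of all stars, over a `q`-line. -/
def T_LCP : Prop :=
  ∀ (k : ℕ) (S : Finset ℕ) (V : Set (X k)) (Ge : ℕ → Set (X k)) (Gd : ℕ → ℕ → Set (X k))
    (P m τ Ω kap kap' : ℝ) (q : ℕ), q ∉ S → SDatP k (insert q S) V Ge Gd P m τ Ω → 0 < kap →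
    kap ≤ 1 → 0 < kap' → ∀ (b : X k) (y : ℕ), y < DS S →
    (∑ z ∈ range q, ((Nat.card {κ : Kr k (DS S) y // StarP (insert q S) V Gd (b + κ.1)
      (y + DS S * z)} : ℕ) : ℝ) ≤ (DS S : ℝ) ^ k * q) ∧
    ((∀ p ∈ S, ¬ BadP p q V (Gd p) kap (phi (DS S / p) (y % (DS S / p)) b)
        (y / (DS S / p))) →
      ∑ z ∈ range q, ((Nat.card {κ : Kr k (DS S) y // LonelyP S q V Gd kap' (b + κ.1)
        (y + DS S * z)} : ℕ) : ℝ) ≤ (DS S : ℝ) ^ k * q * (kap' + S.card * kap))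

/-- LMP: the mass of the lonely stars. -/
def T_LMP : Prop :=
  ∀ k : ℕ, 3 ≤ k → ∃ C : ℝ, 1 ≤ C ∧ ∀ (S : Finset ℕ) (V : Set (X k)) (Ge : ℕ → Set (X k))
    (Gd : ℕ → ℕ → Set (X k)) (P m τ Ω kap kap' : ℝ) (q : ℕ), q ∉ S →
    SDatP k (insert q S) V Ge Gd P m τ Ω → 0 < kap → kap ≤ 1 → 0 < kap' →
    mass k (DS (insert q S)) (fun b x => LonelyP S q V Gd kap' b x) ≤
      (S.card * (C * m ^ 3 / (kap ^ 3 * P)) + kap' + S.card * kap) * Ω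

/-- RIP: stars which are not rich are rare. -/
def T_RIP : Prop :=
  ∀ k : ℕ, 3 ≤ k → ∃ C : ℝ, 1 ≤ C ∧ ∀ (n : ℕ) (S : Finset ℕ) (V : Set (X k)) (Ge : ℕ → Set (X k))
    (Gd : ℕ → ℕ → Set (X k)) (P m τ Ω kap kap' : ℝ), S.card = n →
    SDatP k S V Ge Gd P m τ Ω → 0 < kap → kap ≤ 1 → 0 < kap' → kap' ≤ 1 →
    mass k (DS S) (fun b x => StarP S V Gd b x ∧ ¬ Rich S V (kap' ^ n * τ) b x) ≤
      2 ^ n * (n * (C * m ^ 3 / (kap ^ 3 * P)) + kap' + n * kap) * Ω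

/-- CVP: the points covered by rich stars. -/
def T_CVP : Prop :=
  ∀ (k : ℕ) (S : Finset ℕ) (V : Set (X k)) (Ge : ℕ → Set (X k)) (Gd : ℕ → ℕ → Set (X k))
    (P m τ Ω κ : ℝ), SDatP k S V Ge Gd P m τ Ω →
    mass k (DS S) (fun b x => StarP S V Gd b x ∧ Rich S V κ b x) ≤
      volume.real {w : X k | ∃ (b : X k) (x : ℕ), x < DS S ∧ phi (DS S) x b = w ∧
        Rich S V κ b x}

/-! ## 3. Result -/

/-- PRP: the numbers: one good prime. If many points of level `N₁` are alive, then the `p`-lines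
over level `N₀` have large good mass for every prime `p` of a pool. The set `A` consists of alive
points of level `p N₀`. -/
def T_PRP : Prop :=
  ∀ k : ℕ, 3 ≤ k → ∃ (Dc d C C' : ℝ), 0 < Dc ∧ 0 < d ∧ d ≤ 1 / 100 ∧ 1 ≤ C ∧ 1 ≤ C' ∧
    ∀ Dm : ℝ, ∃ q₀ : ℕ,
    ∀ (p N₀ N₁ : ℕ) (M H w : ℝ), q₀ ≤ p → p.Prime → 1 ≤ N₀ → 1 ≤ M → 0 ≤ H → 0 ≤ w →
    p * N₀ ≤ N₁ → (N₁ : ℝ) - p * N₀ ≤ w * N₁ → C' * w ≤ Real.exp (-H) →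
    C' * (p : ℝ) ^ (-d) ≤ Real.exp (-C' * H) →
    (p : ℝ) ^ Dc ≤ N₀ / M → (N₀ : ℝ) / M ≤ (p : ℝ) ^ Dm →
    M ^ (KN k) * Real.exp (-H) ≤ (N₁ : ℝ) ^ (KN k) *
      volume.real {a : X k | M ^ (-(1 / 2 : ℝ)) ≤ ‖u N₁ a‖} →
    ∃ (A : Set (X k)) (τ : ℝ), MeasurableSet A ∧
      (∀ a ∈ A, M ^ (-(1 / 2 : ℝ)) / 2 ≤ ‖u (p * N₀) a‖) ∧
      Cnt (Pool.Agent.H24.CL.H k p k) A ((p : ℝ) ^ (1 / 100 : ℝ)) ∧
      Cnt (Pool.Agent.H24.CL.H k p 1) A (C * Real.exp (C * H)) ∧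
      τ = Real.exp (-C * H) / C ∧
      Real.exp (-C' * H) / C' * (M / N₀) ^ (KN k) ≤ (p : ℝ) ^ (KN k - k) * ((1 / (p : ℝ)) *
        ∑ y ∈ range p, volume.real {a : X k |
          a ∈ Uns k p (GdL k p A {v : X k | M ^ (-(1 / 2 : ℝ)) / 8 ≤ ‖u N₀ v‖} τ) y ∧
          phi p y a ∈ {v : X k | M ^ (-(1 / 2 : ℝ)) / 8 ≤ ‖u N₀ v‖}})

/-- SRP: if there are many alive points, then many alive points lie on long dense lines. -/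
def T_SRP : Prop :=
  ∀ k : ℕ, 3 ≤ k → ∀ C₃ ε : ℝ, 1 ≤ C₃ → 0 < ε → ε ≤ 1 → ∃ c₀ : ℝ, 0 < c₀ ∧
    ∀ (M x H : ℝ) (N₁ : ℕ), 2 ≤ M → 1 ≤ x → x ≤ Real.log M → 0 ≤ H →
    H + 1 ≤ c₀ * x ^ 3 / Real.log M ^ 2 → M * Real.exp x ≤ N₁ → (N₁ : ℝ) ≤ M * Real.exp (2 * x) →
    M ^ (KN k) * Real.exp (-H) ≤ (N₁ : ℝ) ^ (KN k) *
      volume.real {a : X k | M ^ (-(1 / 2 : ℝ)) ≤ ‖u N₁ a‖} →
    ∃ (N₀ : ℕ) (S : Finset ℕ), M * Real.exp (x / 2) ≤ N₀ ∧ N₀ ≤ N₁ ∧ (∀ p ∈ S, p.Prime) ∧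
      M ^ C₃ ≤ (DS S : ℝ) ∧
      M ^ (KN k) * Real.exp (-ε * x) ≤ (N₀ : ℝ) ^ (KN k) * volume.real {w : X k | ∃ (b : X k)
        (x' : ℕ), x' < DS S ∧ phi (DS S) x' b = w ∧
        Rich S {v : X k | M ^ (-(1 / 2 : ℝ)) / 8 ≤ ‖u N₀ v‖} (Real.exp (-ε * x)) b x'}

/-- WE2: the centre of a rich star over a long line is seen by the functional. -/
def T_WE2 : Prop :=
  ∀ k : ℕ, 3 ≤ k → ∃ C : ℝ, 1 ≤ C ∧ ∀ (M κ : ℝ) (N : ℕ) (S : Finset ℕ) (b : X k) (x : ℕ), 1 ≤ M →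
    0 < κ → κ ≤ 1 → 2048 * M / κ ≤ N → (∀ p ∈ S, p.Prime) → C * (N : ℝ) ^ C ≤ (DS S : ℝ) →
    x < DS S → Rich S {v : X k | M ^ (-(1 / 2 : ℝ)) / 8 ≤ ‖u N v‖} κ b x →
      phi (DS S) x b ∈ WS k N (C * (N : ℝ) ^ C) (128 * M / κ)

end Pool.Agent.H26.ES
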