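import Pool.Agent.H93.ES.Targets
import Pool.Agent.H91.BS.ESM

/-!
# Row COV of es_modules: four numbers cover the large Fourier coefficients
-/

set_option autoImplicit false

open Finset Pool.Agent.H6.N4D Pool.Agent.H93.ES

namespace Pool.Agent.H26.ES

theorem kernel_bound (u : ℝ) (T : ℕ) (C : ℝ) (hC : 0 < C) (hT : 0 < T) (hu : C / T ≤ nd u) :
    ‖∑ t ∈ range T, ee (u * t)‖ ≤ T / (2 * C) := by
  have hT' : (0 : ℝ) < T := by exact_mod_cast hT
  have h0 : 0 < nd u := lt_of_lt_of_le (by positivity) hu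
  have h1 := Pool.Agent.H91.BS.geo_bound u h0 0 T
  simp only [zero_add] at h1
  refine h1.trans ?_
  rw [div_le_div_iff₀ (by positivity) (by positivity)]
  rw [div_le_iff₀ hT'] at hu
  nlinarith

theorem ee_conj (x : ℝ) : (starRingEnd ℂ) (ee x) = ee (-x) := by
  unfold ee
  rw [← Complex.exp_conj, map_mul, Complex.conj_I, Complex.conj_ofReal]
  congr 1
  push_cast
  ring

theorem five_points (w : ℕ) (f : ℕ → ℝ) (hf : ∀ t, |f t| ≤ 1) (z : Fin 5 → ℝ)
    (hz : ∀ i j, i ≠ j → 10 / 2 ^ w ≤ nd (z i - z j))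
    (hF : ∀ i, 1 / 2 ≤ ‖wm f w (fun t => ee (-(z i * t)))‖) : False := by
  obtain ⟨T, hT⟩ : ∃ T : ℕ, T = 2 ^ w := ⟨_, rfl⟩
  have hT0 : 0 < T := by rw [hT]; positivity
  have hTr : (0 : ℝ) < T := by exact_mod_cast hT0
  have hTR : ((2 : ℝ) ^ w) = T := by rw [hT]; push_cast; ring
  have hTC : ((2 : ℂ) ^ w) = T := by rw [hT]; push_cast; ring
  set F : Fin 5 → ℂ := fun i => wm f w (fun t => ee (-(z i * t))) with hFd
  have hFi : ∀ i, F i * T = ∑ t ∈ range T, (f t : ℂ) * ee (-(z i * t)) := by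
    intro i
    rw [hFd]
    simp only [wm]
    rw [← hT, hTC]
    exact div_mul_cancel₀ _ (by exact_mod_cast hT0.ne')
  set G : ℕ → ℂ := fun t => ∑ i, (starRingEnd ℂ) (F i) * ee (-(z i * t)) with hG
  set S : ℝ := ∑ i, ‖F i‖ ^ 2 with hS
  have hS1 : (S : ℂ) * T = ∑ t ∈ range T, (f t : ℂ) * G t := by
    rw [hS]
    push_cast
    rw [sum_mul]
    have : ∀ i, ((‖F i‖ : ℂ)) ^ 2 * T =
        ∑ t ∈ range T, (f t : ℂ) * ((starRingEnd ℂ) (F i) * ee (-(z i * t))) := by
      intro i
      rw [← Complex.conj_mul', mul_assoc, hFi, mul_sum]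
      refine sum_congr rfl fun t _ => ?_
      ring
    simp_rw [this]
    rw [sum_comm]
    refine sum_congr rfl fun t _ => ?_
    rw [hG]
    simp only
    rw [mul_sum]
  have hS0 : 0 ≤ S := by rw [hS]; positivity
  have hS2 : S * T ≤ ∑ t ∈ range T, ‖G t‖ := by
    have h1 : ‖(S : ℂ) * T‖ = S * T := by
      rw [norm_mul, Complex.norm_natCast, Complex.norm_real, Real.norm_of_nonneg hS0]
    rw [← h1, hS1]
    refine (norm_sum_le _ _).trans (sum_le_sum fun t _ => ?_)
    rw [norm_mul, Complex.norm_real, Real.norm_eq_abs]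
    exact mul_le_of_le_one_left (norm_nonneg _) (hf t)
  have hS3 : (S * T) ^ 2 ≤ T * ∑ t ∈ range T, ‖G t‖ ^ 2 := by
    have h1 : (∑ t ∈ range T, ‖G t‖) ^ 2 ≤ (range T).card * ∑ t ∈ range T, ‖G t‖ ^ 2 :=
      sq_sum_le_card_mul_sum_sq
    rw [card_range] at h1
    refine le_trans ?_ h1
    gcongr
  have hG2 : ((∑ t ∈ range T, ‖G t‖ ^ 2 : ℝ) : ℂ) =
      ∑ i, ∑ j, (starRingEnd ℂ) (F i) * F j * ∑ t ∈ range T, ee ((z j - z i) * t) := by
    push_cast
    have h1 : ∀ t : ℕ, ((‖G t‖ : ℂ)) ^ 2 =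
        ∑ i, ∑ j, (starRingEnd ℂ) (F i) * F j * ee ((z j - z i) * t) := by
      intro t
      rw [← Complex.mul_conj', hG]
      simp only
      rw [map_sum, sum_mul_sum]
      refine sum_congr rfl fun i _ => sum_congr rfl fun j _ => ?_
      rw [map_mul, Complex.conj_conj, ee_conj]
      rw [show (z j - z i) * (t : ℝ) = -(z i * t) + (-(-(z j * t))) by ring, ee_add]
      ring
    simp_rw [h1]
    rw [sum_comm]
    refine sum_congr rfl fun i _ => ?_
    rw [sum_comm]
    refine sum_congr rfl fun j _ => ?_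
    rw [mul_sum]
  have hK : ∀ i j, ‖∑ t ∈ range T, ee ((z j - z i) * t)‖ ≤ T * (if i = j then 1 else 1 / 20) := by
    intro i j
    by_cases hij : i = j
    · subst hij
      rw [if_pos rfl, mul_one]
      refine (norm_sum_le _ _).trans ?_
      simp [norm_ee]
    · rw [if_neg hij]
      have h1 := hz j i (Ne.symm hij)
      rw [hTR] at h1
      refine (kernel_bound (z j - z i) T 10 (by norm_num) hT0 h1).trans (le_of_eq ?_)
      ring
  have hG3 : ∑ t ∈ range T, ‖G t‖ ^ 2 ≤ T * (6 / 5 * S) := by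
    have h0 : 0 ≤ ∑ t ∈ range T, ‖G t‖ ^ 2 := by positivity
    have h1 : ‖((∑ t ∈ range T, ‖G t‖ ^ 2 : ℝ) : ℂ)‖ = ∑ t ∈ range T, ‖G t‖ ^ 2 := by
      rw [Complex.norm_real, Real.norm_of_nonneg h0]
    rw [← h1, hG2]
    have h2 : ‖∑ i, ∑ j, (starRingEnd ℂ) (F i) * F j * ∑ t ∈ range T, ee ((z j - z i) * t)‖ ≤
        ∑ i, ∑ j, ‖F i‖ * ‖F j‖ * (T * (if i = j then 1 else 1 / 20)) := by
      refine (norm_sum_le _ _).trans (sum_le_sum fun i _ => ?_)
      refine (norm_sum_le _ _).trans (sum_le_sum fun j _ => ?_)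
      rw [norm_mul, norm_mul, RCLike.norm_conj]
      exact mul_le_mul_of_nonneg_left (hK i j) (by positivity)
    refine h2.trans ?_
    have h3 : ∑ i : Fin 5, ∑ j : Fin 5, ‖F i‖ * ‖F j‖ * (T * (if i = j then (1 : ℝ) else 1 / 20)) =
        T * (19 / 20 * S + 1 / 20 * (∑ i, ‖F i‖) ^ 2) := by
      rw [hS]
      simp only [Fin.sum_univ_five]
      norm_num [Fin.ext_iff]
      ring
    rw [h3]
    have h4 : (∑ i, ‖F i‖) ^ 2 ≤ (univ : Finset (Fin 5)).card * ∑ i, ‖F i‖ ^ 2 :=
      sq_sum_le_card_mul_sum_sq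
    rw [card_univ, Fintype.card_fin] at h4
    push_cast at h4
    refine mul_le_mul_of_nonneg_left ?_ hTr.le
    linarith
  have hS4 : 5 / 4 ≤ S := by
    have h1 : ∀ i, 1 / 4 ≤ ‖F i‖ ^ 2 := by
      intro i
      have := hF i
      have h2 : (1 / 2 : ℝ) ≤ ‖F i‖ := this
      nlinarith
    rw [hS]
    calc (5 / 4 : ℝ) = ∑ _i : Fin 5, (1 / 4 : ℝ) := by simp; norm_num
      _ ≤ _ := sum_le_sum fun i _ => h1 i
  have h5 : (S * T) ^ 2 ≤ T * (T * (6 / 5 * S)) :=
    hS3.trans (mul_le_mul_of_nonneg_left hG3 hTr.le)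
  have h6 : S ^ 2 ≤ 6 / 5 * S := by
    have h7 : T ^ 2 * S ^ 2 ≤ T ^ 2 * (6 / 5 * S) := by nlinarith
    exact le_of_mul_le_mul_left h7 (by positivity)
  nlinarith

theorem pf_COV : T_COV := by
  refine ⟨10, by norm_num, fun w f hf => ?_⟩
  by_contra hcon
  push Not at hcon
  have step : ∀ S : Fin 4 → ℝ, ∃ α : ℝ, 1 / 2 ≤ ‖wm f w (fun t => ee (-(α * t)))‖ ∧
      ∀ i, 10 / 2 ^ w < nd (α - S i) := by
    intro S
    have := hcon S
    unfold Cov at this
    push Not at this
    exact this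
  obtain ⟨a, ha, -⟩ := step (fun _ => 0)
  obtain ⟨b, hb, hb'⟩ := step (fun _ => a)
  obtain ⟨c, hc, hc'⟩ := step ![a, b, b, b]
  obtain ⟨d, hd, hd'⟩ := step ![a, b, c, c]
  obtain ⟨e, he, he'⟩ := step ![a, b, c, d]
  have hba := hb' 0
  have hca := hc' 0
  have hcb := hc' 1
  have hda := hd' 0
  have hdb := hd' 1
  have hdc := hd' 2
  have hea := he' 0
  have heb := he' 1
  have hec := he' 2
  have hed := he' 3
  simp at hba hca hcb hda hdb hdc hea heb hec hed
  refine five_points w f hf ![a, b, c, d, e] ?_ ?_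
  · intro i j hij
    fin_cases i <;> fin_cases j <;> simp at hij ⊢ <;>
      first
        | exact hba.le
        | exact hca.le
        | exact hcb.le
        | exact hda.le
        | exact hdb.le
        | exact hdc.le
        | exact hea.le
        | exact heb.le
        | exact hec.le
        | exact hed.le
        | (rw [nd_sub_comm]; first
            | exact hba.le
            | exact hca.le
            | exact hcb.le
            | exact hda.le
            | exact hdb.le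
            | exact hdc.le
            | exact hea.le
            | exact heb.le
            | exact hec.le
            | exact hed.le)
  · intro i
    fin_cases i <;> simp
    · simpa using ha
    · simpa using hb
    · simpa using hc
    · simpa using hd
    · simpa using he

end Pool.Agent.H26.ES
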