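import Pool.Agent.H24.LV.TargetsE

/-!
# The critical mean value with a power of the logarithm saved: stars, definitions (helper26)

The goodness of a `p`-line depends on the position of the cell: `Gd p y` is the set of the lines
which are good at the position `y < p`. Page: H26_E21_STAR.md.
-/

set_option autoImplicit false

open Finset MeasureTheory

namespace Pool.Agent.H26.ES

open Pool.Agent.H24.CL Pool.Agent.H24.LV

/-- the cell `x` of the line `b` (modulo `DS S`) is the centre of a star -/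
def StarP {k : ℕ} (S : Finset ℕ) (V : Set (X k)) (Gd : ℕ → ℕ → Set (X k)) (b : X k) (x : ℕ) :
    Prop :=
  phi (DS S) x b ∈ V ∧
    ∀ p ∈ S, phi (DS S / p) (x % (DS S / p)) b ∈ Gd p (x / (DS S / p))

/-- the good lines are invariant under `H k p 1` -/
def Inv (k p : ℕ) (G : Set (X k)) : Prop := ∀ a ∈ G, ∀ h ∈ H k p 1, a + h ∈ G

/-- through a point and a position there is at most one good line modulo `H k p 1` -/
def Uni (k p : ℕ) (G : ℕ → Set (X k)) : Prop :=
  ∀ y < p, ∀ a ∈ G y, ∀ a' ∈ G y, phi p y a = phi p y a' → a - a' ∈ H k p 1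

/-- Data for the stars: `Ge p` are the good `p`-lines, `Gd p y` those which are good at `y`. -/
structure SDatP (k : ℕ) (S : Finset ℕ) (V : Set (X k)) (Ge : ℕ → Set (X k))
    (Gd : ℕ → ℕ → Set (X k)) (P m τ Ω : ℝ) : Prop where
  hk : 3 ≤ k
  hP : 1 ≤ P
  hm : 1 ≤ m
  hτ : 0 < τ
  hτ1 : τ ≤ 1
  hΩ : 0 ≤ Ω
  pr : ∀ p ∈ S, p.Prime ∧ k < p ∧ P ≤ (p : ℝ) ∧ (p : ℝ) ≤ 2 * P
  mV : MeasurableSet V
  mE : ∀ p ∈ S, MeasurableSet (Ge p)
  mG : ∀ p ∈ S, ∀ y, MeasurableSet (Gd p y)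
  sub : ∀ p ∈ S, ∀ y, Gd p y ⊆ Ge p
  invE : ∀ p ∈ S, Inv k p (Ge p)
  inv : ∀ p ∈ S, ∀ y, Inv k p (Gd p y)
  uni : ∀ p ∈ S, Uni k p (Gd p)
  den : ∀ p ∈ S, ∀ a ∈ Ge p, τ ≤ hd p V a
  fib2 : ∀ p ∈ S, ∀ q ∈ S, p ≠ q → CntM (H k p k ⊔ H k q k) (H k p 1) (Ge p) m
  ms : ∀ p ∈ S, (p : ℝ) ^ (KN k - k) * volume.real (Ge p) ≤ Ω

open Classical in
/-- the density of the crossings of the `q`-line `phi p y b` with good `p`-lines parallel to those
of the grid `b` -/
noncomputable def acP {k : ℕ} (p q : ℕ) (V : Set (X k)) (G : ℕ → Set (X k)) (b : X k) (y : ℕ) : ℝ :=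
  (((range q).filter fun z => phi q z (phi p y b) ∈ V ∧
    phi q ((y + p * z) % q) b ∈ G ((y + p * z) / q)).card : ℝ) / q

open Classical in
/-- the number of the pairs of crossings of the `q`-line `phi p y b` with good `p`-lines of
different directions, divided by `q ^ 2` (every direction counts `p ^ k` times) -/
noncomputable def difP {k : ℕ} (p q : ℕ) (V : Set (X k)) (G : ℕ → Set (X k)) (b : X k) (y : ℕ) :
    ℝ :=
  ∑ κ ∈ Kr k p y, ∑ κ' ∈ Kr k p y, if κ - κ' ∈ H k p 1 then 0 else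
    acP p q V G (b + κ) y * acP p q V G (b + κ') y

/-- `phi p y b` is a bad `q`-line for the position `y` -/
def BadP {k : ℕ} (p q : ℕ) (V : Set (X k)) (G : ℕ → Set (X k)) (kap : ℝ) (b : X k) (y : ℕ) : Prop :=
  kap ^ 2 * (p : ℝ) ^ (2 * k) ≤ difP p q V G b y

open Classical in
/-- a star over `insert q S` is lonely: few stars with the same grid on the same `q`-line have
their `DS S`-line at least as dense -/
def LonelyP {k : ℕ} (S : Finset ℕ) (q : ℕ) (V : Set (X k)) (Gd : ℕ → ℕ → Set (X k)) (kap : ℝ)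
    (b : X k) (x : ℕ) : Prop :=
  StarP (insert q S) V Gd b x ∧
    (((range q).filter fun z => StarP (insert q S) V Gd b (x % DS S + DS S * z) ∧
      hd (DS S) V (phi q (x % q) b) ≤
        hd (DS S) V (phi q ((x % DS S + DS S * z) % q) b)).card : ℝ) < kap * q

/-- the lines of `G` through whose cell at `y` no other line of `G` passes (modulo `H k p 1`) -/
def Uns (k p : ℕ) (G : Set (X k)) (y : ℕ) : Set (X k) :=
  {a | a ∈ G ∧ ∀ κ ∈ Kr k p y, a + κ ∈ G → κ ∈ H k p 1}

end Pool.Agent.H26.ES
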