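import Pool.Agent.H26.ES.Targets

/-!
# The critical mean value with a power of the logarithm saved: the end and the result (helper26)
-/

set_option autoImplicit false

open Finset MeasureTheory

namespace Pool.Agent.H26.ES

open Pool.Agent.H24.CL Pool.Agent.H24.LV

/-- EN: few points are seen by the functional (helper65). -/
def T_EN : Prop :=
  ∀ k : ℕ, 3 ≤ k → ∀ C₁ : ℝ, 1 ≤ C₁ → ∃ C : ℝ, 1 ≤ C ∧ ∀ (N : ℕ) (M' : ℝ), 2 ≤ N → 1 ≤ M' →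
    M' * Real.exp (C * Real.log N ^ (2 / 3 : ℝ)) ≤ N →
    (N : ℝ) ^ (KN k) * volume.real (WS k N (C₁ * (N : ℝ) ^ C₁) M') ≤
      C * M' ^ (KN k) * (M' / N)

/-- FI2: the level sets. -/
def T_FI2 : Prop :=
  ∀ k : ℕ, 3 ≤ k → ∃ c C : ℝ, 0 < c ∧ ∀ (M : ℝ) (N : ℕ), 2 ≤ M → M ≤ N → (N : ℝ) ≤ M ^ 2 →
    (N : ℝ) ^ (KN k) * volume.real {a : X k | M ^ (-(1 / 2 : ℝ)) ≤ ‖u N a‖} ≤
      C * M ^ (KN k) * Real.exp (-(c * Real.log (N / M) ^ 3 / Real.log M ^ 2))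

/-- JJ2: the critical mean value. -/
def T_JJ2 : Prop :=
  ∀ k : ℕ, 3 ≤ k → ∃ C : ℝ, ∀ N : ℕ, 1 ≤ N →
    ∫ a : X k, ‖f N a‖ ^ (2 * KN k) ≤ C * (N : ℝ) ^ (KN k) * (1 + Real.log N) ^ (2 / 3 : ℝ)

end Pool.Agent.H26.ES
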